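import Pool.Agent.H60.CM.Basic

/-!
Board cms_modules, row HES: the second derivative test.
-/

set_option autoImplicit false

namespace Pool.Agent.H74.CM.HES

open Set Function MeasureTheory Filter Topology
open scoped Manifold ContDiff Matrix
open Pool.Agent.H60.CM

theorem deriv2_nonneg {k : ℝ → ℝ} (hk : ContinuousAt k 0) (hmin : IsLocalMin k 0) :
    0 ≤ deriv (deriv k) 0 := by
  by_contra hneg
  push Not at hneg
  have h0 : deriv k 0 = 0 := hmin.deriv_eq_zero
  have hd : deriv (fun t => -k t) = fun t => -deriv k t := by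
    funext t
    exact deriv.fun_neg
  have h1 : 0 < deriv (deriv (fun t => -k t)) 0 := by
    rw [hd]
    have : deriv (fun t => -deriv k t) 0 = -deriv (deriv k) 0 := deriv.fun_neg
    rw [this]
    linarith
  have h2 : deriv (fun t => -k t) 0 = 0 := by rw [hd]; simp [h0]
  have h3 : IsLocalMin (fun t => -k t) 0 := isLocalMin_of_deriv_deriv_pos h1 h2 hk.neg
  have h4 : k =ᶠ[𝓝 0] fun _ => k 0 := by
    filter_upwards [hmin, h3] with t ht1 ht2
    have ht2' : -k 0 ≤ -k t := ht2
    linarith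
  have h5 : deriv k =ᶠ[𝓝 0] deriv (fun _ => k 0) := h4.deriv
  have h6 : deriv (deriv k) 0 = 0 := by
    rw [h5.deriv_eq]
    simp
  linarith

theorem second {g : E2 → ℝ} {y : E2} (hg : ContDiffAt ℝ 2 g y) (hmin : IsLocalMin g y) (v : E2) :
    0 ≤ fderiv ℝ (fderiv ℝ g) y v v := by
  have hdiff : ∀ᶠ z in 𝓝 y, DifferentiableAt ℝ g z := by
    have := hg.eventually (by simp)
    filter_upwards [this] with z hz
    exact hz.differentiableAt (by norm_num)
  have hL : Continuous fun t : ℝ => y + t • v := by fun_prop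
  have hLt : Tendsto (fun t : ℝ => y + t • v) (𝓝 0) (𝓝 y) := by
    have := hL.tendsto 0
    simpa using this
  have hLd : ∀ t : ℝ, HasDerivAt (fun t : ℝ => y + t • v) v t := by
    intro t
    have h1 := (hasDerivAt_id t).smul_const v
    have h2 := h1.const_add y
    simpa using h2
  set k : ℝ → ℝ := fun t => g (y + t • v) with hk
  have hk1 : ∀ᶠ t in 𝓝 (0 : ℝ), deriv k t = fderiv ℝ g (y + t • v) v := by
    filter_upwards [hLt.eventually hdiff] with t ht
    exact (ht.hasFDerivAt.comp_hasDerivAt t (hLd t)).deriv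
  have hk2 : deriv (deriv k) 0 = fderiv ℝ (fderiv ℝ g) y v v := by
    have h1 : deriv k =ᶠ[𝓝 0] fun t => fderiv ℝ g (y + t • v) v := hk1
    rw [h1.deriv_eq]
    have h2 : DifferentiableAt ℝ (fderiv ℝ g) y :=
      (hg.fderiv_right (m := 1) (by norm_num)).differentiableAt (by norm_num)
    have h3 : HasFDerivAt (fderiv ℝ g) (fderiv ℝ (fderiv ℝ g) y) (y + (0 : ℝ) • v) := by
      rw [zero_smul, add_zero]; exact h2.hasFDerivAt
    have h4 := h3.comp_hasDerivAt (0 : ℝ) (hLd 0)
    have h5 := h4.clm_apply (hasDerivAt_const (0 : ℝ) v)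
    have h6 := h5.deriv
    simpa using h6
  rw [← hk2]
  refine deriv2_nonneg ?_ ?_
  · have h1 : ContinuousAt g (y + (0 : ℝ) • v) := by
      rw [zero_smul, add_zero]; exact hg.continuousAt
    exact ContinuousAt.comp h1 hL.continuousAt
  · have h1 : ∀ᶠ t in 𝓝 (0 : ℝ), g y ≤ g (y + t • v) := hLt.eventually hmin
    filter_upwards [h1] with t ht
    simpa [hk] using ht

theorem pd_pd {g : E2 → ℝ} {y : E2} (hg : ContDiffAt ℝ 2 g y) (i j : Fin 2) :
    pd (fun z => pd g z j) y i = fderiv ℝ (fderiv ℝ g) y (ee i) (ee j) := by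
  have h2 : DifferentiableAt ℝ (fderiv ℝ g) y :=
    (hg.fderiv_right (m := 1) (by norm_num)).differentiableAt (by norm_num)
  unfold pd
  have h3 := (h2.hasFDerivAt.clm_apply (hasFDerivAt_const (ee j) y)).fderiv
  rw [h3]
  simp

theorem pf_HES : T_HES := by
  intro g y hg hmin
  refine ⟨fun i => ?_, fun a b c ha hac => ?_⟩
  · unfold pd
    rw [hmin.fderiv_eq_zero]
    simp
  · rw [pd_pd hg, pd_pd hg, pd_pd hg]
    set B := fderiv ℝ (fderiv ℝ g) y with hB
    have hsym : B (ee 1) (ee 0) = B (ee 0) (ee 1) :=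
      (hg.isSymmSndFDerivAt (by simp)) (ee 1) (ee 0)
    have h11 : 0 ≤ B (ee 1) (ee 1) := second hg hmin _
    have hP : 0 ≤ B (a • ee 0 + b • ee 1) (a • ee 0 + b • ee 1) := second hg hmin _
    have hP2 : B (a • ee 0 + b • ee 1) (a • ee 0 + b • ee 1) =
        a ^ 2 * B (ee 0) (ee 0) + 2 * a * b * B (ee 0) (ee 1) + b ^ 2 * B (ee 1) (ee 1) := by
      simp only [map_add, map_smul, add_apply, smul_apply, smul_eq_mul]
      rw [hsym]
      ring
    rw [hP2] at hP
    have h3 : 0 ≤ a * (a * B (ee 0) (ee 0) + 2 * b * B (ee 0) (ee 1) + c * B (ee 1) (ee 1)) := by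
      nlinarith [mul_nonneg hac.le h11]
    exact nonneg_of_mul_nonneg_right h3 ha

end Pool.Agent.H74.CM.HES
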