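import Pool.Agent.H74.CM.HES

/-!
Board cms_modules, row PB1: the bracket has integral zero in the plane.
-/

set_option autoImplicit false

namespace Pool.Agent.H74.CM.PB1

open Set Function MeasureTheory Filter Topology
open scoped Manifold ContDiff Matrix
open Pool.Agent.H60.CM

theorem two_le : (2 : WithTop ℕ∞) ≤ ∞ := ENat.LEInfty.out

theorem integral_pd_zero {h : E2 → ℝ} (hh : ContDiff ℝ 1 h) (hc : HasCompactSupport h)
    (i : Fin 2) : Integrable (fun y => pd h y i) ∧ ∫ y, pd h y i = 0 := by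
  have hcont : Continuous fun y => pd h y i := by
    unfold pd
    exact (hh.continuous_fderiv (by norm_num)).clm_apply continuous_const
  have hcs : HasCompactSupport fun y => pd h y i := by
    unfold pd
    exact hc.fderiv_apply (𝕜 := ℝ) (ee i)
  have hint : Integrable (fun y => pd h y i) := hcont.integrable_of_hasCompactSupport hcs
  refine ⟨hint, ?_⟩
  have h0 : ∀ x : E2, fderiv ℝ (fun _ : E2 => (1 : ℝ)) x (ee i) = 0 := by
    intro x
    simp
  have h1 := integral_mul_fderiv_eq_neg_fderiv_mul_of_integrable (μ := volume)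
    (f := fun _ : E2 => (1 : ℝ)) (g := h) (v := ee i) (by simp)
    (by simpa [pd] using hint)
    (by simpa using hh.continuous.integrable_of_hasCompactSupport hc)
    (fun x _ => differentiableAt_const _) (fun x _ => (hh.differentiable (by norm_num)) x)
  simp only [h0, zero_mul, one_mul, integral_zero, neg_zero] at h1
  exact h1

theorem pf_PB1 : T_PB1 := by
  classical
  intro O K g b hO hK hKO hg hb hgK
  have hgA : ∀ y ∈ O, ContDiffAt ℝ ∞ g y := fun y hy => hg.contDiffAt (hO.mem_nhds hy)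
  have hbA : ∀ y ∈ O, ContDiffAt ℝ ∞ b y := fun y hy => hb.contDiffAt (hO.mem_nhds hy)
  have hpbA : ∀ i : Fin 2, ∀ y ∈ O, ContDiffAt ℝ 1 (fun z => pd b z i) y := by
    intro i y hy
    unfold pd
    exact (((hbA y hy).of_le two_le).fderiv_right (m := 1) (by norm_num)).clm_apply
      contDiffAt_const
  set h : Fin 2 → E2 → ℝ := fun i => O.indicator fun z => g z * pd b z i with hh
  have hev : ∀ i : Fin 2, ∀ y ∈ O, h i =ᶠ[𝓝 y] fun z => g z * pd b z i := by
    intro i y hy
    filter_upwards [hO.mem_nhds hy] with z hz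
    simp only [hh]
    exact Set.indicator_of_mem hz _
  have hzero : ∀ i : Fin 2, ∀ z, z ∉ K → h i z = 0 := by
    intro i z hz
    simp only [hh]
    by_cases hzO : z ∈ O
    · rw [Set.indicator_of_mem hzO, hgK z hzO hz, zero_mul]
    · exact Set.indicator_of_notMem hzO _
  have hev0 : ∀ i : Fin 2, ∀ y, y ∉ K → h i =ᶠ[𝓝 y] fun _ => 0 := by
    intro i y hy
    filter_upwards [hK.isClosed.isOpen_compl.mem_nhds hy] with z hz
    exact hzero i z hz
  have hC1 : ∀ i : Fin 2, ContDiff ℝ 1 (h i) := by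
    intro i
    rw [contDiff_iff_contDiffAt]
    intro y
    by_cases hy : y ∈ K
    · have hyO := hKO hy
      refine ContDiffAt.congr_of_eventuallyEq ?_ (hev i y hyO)
      exact ((hgA y hyO).of_le (by exact_mod_cast le_top)).mul (hpbA i y hyO)
    · exact ContDiffAt.congr_of_eventuallyEq contDiffAt_const (hev0 i y hy)
  have hcs : ∀ i : Fin 2, HasCompactSupport (h i) := by
    intro i
    refine HasCompactSupport.intro hK fun z hz => hzero i z hz
  have hpd : ∀ i j : Fin 2, ∀ y ∈ O, pd (h i) y j =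
      pd g y j * pd b y i + g y * fderiv ℝ (fderiv ℝ b) y (ee j) (ee i) := by
    intro i j y hy
    have h1 : pd (h i) y j = pd (fun z => g z * pd b z i) y j := by
      unfold pd
      have := (hev i y hy).fderiv_eq (𝕜 := ℝ)
      unfold pd at this
      rw [this]
    rw [h1, ← Pool.Agent.H74.CM.HES.pd_pd ((hbA y hy).of_le two_le)]
    have hgd : DifferentiableAt ℝ g y := (hgA y hy).differentiableAt (by simp)
    have hbd : DifferentiableAt ℝ (fun z => pd b z i) y :=
      (hpbA i y hy).differentiableAt (by norm_num)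
    have h2 : fderiv ℝ (fun z => g z * pd b z i) y =
        g y • fderiv ℝ (fun z => pd b z i) y + pd b y i • fderiv ℝ g y := fderiv_fun_mul hgd hbd
    show fderiv ℝ (fun z => g z * pd b z i) y (ee j) = _
    rw [h2]
    simp only [add_apply, smul_apply, smul_eq_mul]
    unfold pd
    ring
  have hpd0 : ∀ i j : Fin 2, ∀ y, y ∉ K → pd (h i) y j = 0 := by
    intro i j y hy
    unfold pd
    rw [(hev0 i y hy).fderiv_eq (𝕜 := ℝ)]
    simp
  have key : ∀ y ∈ O, pd g y 0 * pd b y 1 - pd g y 1 * pd b y 0 =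
      pd (h 1) y 0 - pd (h 0) y 1 := by
    intro y hy
    rw [hpd 1 0 y hy, hpd 0 1 y hy]
    have hsym : fderiv ℝ (fderiv ℝ b) y (ee 0) (ee 1) = fderiv ℝ (fderiv ℝ b) y (ee 1) (ee 0) :=
      (((hbA y hy).of_le two_le).isSymmSndFDerivAt (by simp))
        (ee 0) (ee 1)
    rw [hsym]
    ring
  rw [setIntegral_congr_fun hO.measurableSet key]
  have h3 : ∫ y in O, (pd (h 1) y 0 - pd (h 0) y 1) = ∫ y, (pd (h 1) y 0 - pd (h 0) y 1) := by
    refine setIntegral_eq_integral_of_forall_compl_eq_zero fun y hy => ?_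
    have hyK : y ∉ K := fun h => hy (hKO h)
    rw [hpd0 1 0 y hyK, hpd0 0 1 y hyK, sub_zero]
  obtain ⟨i1, z1⟩ := integral_pd_zero (hC1 1) (hcs 1) 0
  obtain ⟨i0, z0⟩ := integral_pd_zero (hC1 0) (hcs 0) 1
  rw [h3, integral_sub i1 i0, z1, z0, sub_zero]

end Pool.Agent.H74.CM.PB1
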